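import Mathlib

/-!
# MP_5ee2d0_ag: termination of a program in dimension `n`

The setting of `Pool.Agent.H87.FB.Steps` in any dimension `n`. `X` is a projective variety of dimension
`n` with canonical singularities and `K_X ~ 0`, `L` a nef class with `L^3 = 0`, `x` a b-divisor over `X`
with real coefficients `x_E ≥ 0` such that `L - t x` is b-nef for small `t ≥ 0`, and `a_E` are the
discrepancies over `X`. Let `lam` be smaller than the log canonical threshold of `x`, and let `Y → X` be
`Q`-factorial, its exceptional divisors the exceptional divisors `E` with `a_E ≤ lam x_E`. Let `F_j` be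
the prime divisors of `Y` with `x_j > 0`. The steps of the program for `D = L - t (SUM x_j F_j)` on `Y`
with scaling of an ample divisor, `t` small, are small and `L`-trivial, all the models `Y_i` are terminal
(the divisors `E` exceptional over `Y` satisfy `a_E - lam x_E > 0`), so they are smooth in codimension
two. We show that there is no infinite sequence of steps.

Let `E` be a prime divisor exceptional over `Y` with `a_E - lam x_E ≤ 1 - del`, where `del > 0` is the
minimum of the `lam x_j - a_j`. The blow up of a subvariety of codimension two which is contained in one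
of the `F_j` is of this kind.
-/

namespace Pool.Agent.H54.XN

/-- Let `Y` be a projective variety with terminal singularities, `L` nef with `L^3 = 0`, `D` and `L - D`
pseudoeffective, `H` very ample, `k` the smallest codimension of a centre on `Y` of a prime divisor over
`Y` along which the numerical asymptotic vanishing order `σ` of `D` is positive, `E` such a divisor, the
centre `Z` of which has codimension `k`, and `s = σ_E(D)`. The centres are countably many (Nakayama
2004). `V` is the intersection of `n - k` very general members of `|H|`. -/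
structure Cut (k : ℕ) (s : ℝ) where
  /-- the number `D^a L^b H^c` on `V` -/
  q : ℕ → ℕ → ℕ → ℝ
  /-- A curve on which `D` is negative is contained in one of the centres (Ein, Lazarsfeld, Mustaţă,
  Nakamaye and Popa 2006; Cacciola and Di Biagio 2013). They meet `V` in points, so `D|V` is nef. -/
  nonneg : ∀ a b c, a + b + c = k → 0 ≤ q a b c
  /-- `L - D` is pseudoeffective on `V` -/
  le : ∀ a b c, a + 1 + b + c = k → q (a + 1) b c ≤ q a (b + 1) c
  cube : ∀ b c, b + c = k → 3 ≤ b → q 0 b c = 0
  /-- the numbers `σ_E(D + e H)`; their limit is `s` (Nakayama 2004) -/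
  sg : ℝ → ℝ
  lim : ∀ t < s, ∃ e₀ : ℝ, 0 < e₀ ∧ ∀ e, 0 < e → e < e₀ → t ≤ sg e
  /-- Let `p` be divisible. The base locus of `|p(D + eH)|` is contained in the union of the centres, so it
  meets `V` in finitely many points `z`, and `0 ≤ M^k = p^k ((D + eH)|V)^k - ∑ e_z`, where `M` is the free
  part on a log resolution and `e_z` the multiplicity of the base ideal. If `z ∈ Z` then the order of
  this ideal along `E` is at least `p σ_E(D + eH)`, so it is contained in a power of the maximal ideal
  with exponent at least `c₁ p σ_E(D + eH)` (Izumi 1985, Rees 1989), and `e_z` is at least the `k`-th power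
  of this number. -/
  c₀ : ℝ
  c₀_pos : 0 < c₀
  mult : ∀ e : ℝ, 0 < e → 0 ≤ sg e →
    c₀ * sg e ^ k ≤ ∑ i ∈ Finset.range (k + 1), (k.choose i : ℝ) * e ^ (k - i) * q i 0 (k - i)

namespace Cut

variable {k : ℕ} {s : ℝ} (C : Cut k s)

theorem le_pow : ∀ b a, a + b = k → C.q a b 0 ≤ C.q 0 k 0 := by
  intro b a
  induction a generalizing b with
  | zero => intro h; have : b = k := by omega
            subst this; exact le_rfl
  | succ a ih =>
      intro h
      exact (C.le a b 0 (by omega)).trans (ih (b + 1) (by omega))

/-- `D^k = 0` on `V` -/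
theorem top (hk : 3 ≤ k) : C.q k 0 0 = 0 := by
  refine le_antisymm ?_ (C.nonneg k 0 0 (by omega))
  have h := C.le_pow 0 k (by omega)
  rwa [C.cube k 0 (by omega) hk] at h

include C in
/-- The codimension of the centres is at most two. -/
theorem false (hk : 3 ≤ k) (hs : 0 < s) : False := by
  obtain ⟨e₀, he₀, hsg⟩ := C.lim (s / 2) (by linarith)
  set K : ℝ := ∑ i ∈ Finset.range k, (k.choose i : ℝ) * C.q i 0 (k - i) with hK
  have hK0 : 0 ≤ K := Finset.sum_nonneg fun i hi =>
    mul_nonneg (Nat.cast_nonneg _) (C.nonneg i 0 (k - i) (by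
      have := Finset.mem_range.1 hi; omega))
  have hpos : 0 < C.c₀ * (s / 2) ^ k := mul_pos C.c₀_pos (pow_pos (by linarith) k)
  -- choose `e`
  have key : ∀ e : ℝ, 0 < e → e < e₀ → e ≤ 1 → C.c₀ * (s / 2) ^ k ≤ e * K := by
    intro e h0 h1 h2
    have h3 := hsg e h0 h1
    have h4 : 0 ≤ C.sg e := by linarith
    have h5 : C.c₀ * (s / 2) ^ k ≤ C.c₀ * C.sg e ^ k :=
      mul_le_mul_of_nonneg_left (pow_le_pow_left₀ (by linarith) h3 k) C.c₀_pos.le
    refine h5.trans ((C.mult e h0 h4).trans ?_)
    rw [Finset.sum_range_succ, Nat.sub_self, C.top hk, mul_zero, add_zero]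
    rw [hK, Finset.mul_sum]
    refine Finset.sum_le_sum fun i hi => ?_
    have hi' := Finset.mem_range.1 hi
    have h6 : e ^ (k - i) ≤ e := by
      calc e ^ (k - i) ≤ e ^ 1 := pow_le_pow_of_le_one h0.le h2 (by omega)
        _ = e := pow_one e
    have h7 : 0 ≤ (k.choose i : ℝ) * C.q i 0 (k - i) :=
      mul_nonneg (Nat.cast_nonneg _) (C.nonneg i 0 (k - i) (by omega))
    calc (k.choose i : ℝ) * e ^ (k - i) * C.q i 0 (k - i)
        = e ^ (k - i) * ((k.choose i : ℝ) * C.q i 0 (k - i)) := by ring
      _ ≤ e * ((k.choose i : ℝ) * C.q i 0 (k - i)) := mul_le_mul_of_nonneg_right h6 h7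
  set e : ℝ := min (min (e₀ / 2) 1) (C.c₀ * (s / 2) ^ k / (2 * (K + 1))) with he
  have h0 : 0 < e := by
    refine lt_min (lt_min (by linarith) one_pos) (div_pos hpos (by linarith))
  have h1 : e < e₀ := lt_of_le_of_lt ((min_le_left _ _).trans (min_le_left _ _)) (by linarith)
  have h2 : e ≤ 1 := (min_le_left _ _).trans (min_le_right _ _)
  have h3 := key e h0 h1 h2
  have h4 : e * K ≤ C.c₀ * (s / 2) ^ k / (2 * (K + 1)) * K :=
    mul_le_mul_of_nonneg_right (min_le_right _ _) hK0
  have h5 : C.c₀ * (s / 2) ^ k / (2 * (K + 1)) * K < C.c₀ * (s / 2) ^ k := by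
    rw [div_mul_eq_mul_div, div_lt_iff₀ (by linarith)]
    nlinarith
  linarith

end Cut

end Pool.Agent.H54.XN
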