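import Pool.Agent.H54.XN.BCl

/-! Linear algebra of b-classes in dimension `n = m + 4`. -/

namespace Pool.Agent.H54.XN

variable {r m : ℕ} {B : BCl r m}

namespace BCl

theorem o_sub (a b : B.V) (E : B.D) : B.o (a - b) E = B.o a E - B.o b E := by
  have := (IsLinearMap.mk' _ B.o_lin).map_sub a b
  exact congrFun this E

theorem o_add (a b : B.V) (E : B.D) : B.o (a + b) E = B.o a E + B.o b E := by
  have := (IsLinearMap.mk' _ B.o_lin).map_add a b
  exact congrFun this E

theorem o_smul (t : ℝ) (a : B.V) (E : B.D) : B.o (t • a) E = t * B.o a E := by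
  have := (IsLinearMap.mk' _ B.o_lin).map_smul t a
  exact congrFun this E

theorem o_sum {ι : Type} (s : Finset ι) (f : ι → B.V) (E : B.D) :
    B.o (∑ i ∈ s, f i) E = ∑ i ∈ s, B.o (f i) E := by
  have h : B.o (∑ i ∈ s, f i) E = (∑ i ∈ s, B.o (f i)) E :=
    congrFun (map_sum (IsLinearMap.mk' _ B.o_lin) f s) E
  rw [h, Finset.sum_apply]

theorem o_pb' (x : Fin r → ℝ) (E : B.D) : B.o (B.pb x) E = 0 := by
  rw [B.o_pb]; rfl

theorem tr_sub (a b : B.V) : B.tr (a - b) = B.tr a - B.tr b :=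
  (IsLinearMap.mk' _ B.tr_lin).map_sub a b

theorem tr_add (a b : B.V) : B.tr (a + b) = B.tr a + B.tr b :=
  (IsLinearMap.mk' _ B.tr_lin).map_add a b

theorem tr_smul (t : ℝ) (a : B.V) : B.tr (t • a) = t • B.tr a :=
  (IsLinearMap.mk' _ B.tr_lin).map_smul t a

theorem tr_sum {ι : Type} (s : Finset ι) (f : ι → B.V) :
    B.tr (∑ i ∈ s, f i) = ∑ i ∈ s, B.tr (f i) :=
  map_sum (IsLinearMap.mk' _ B.tr_lin) f s

theorem pb_add (a b : Fin r → ℝ) : B.pb (a + b) = B.pb a + B.pb b :=
  (IsLinearMap.mk' _ B.pb_lin).map_add a b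

theorem pb_sub (a b : Fin r → ℝ) : B.pb (a - b) = B.pb a - B.pb b :=
  (IsLinearMap.mk' _ B.pb_lin).map_sub a b

theorem pb_smul (t : ℝ) (a : Fin r → ℝ) : B.pb (t • a) = t • B.pb a :=
  (IsLinearMap.mk' _ B.pb_lin).map_smul t a

theorem pb_zero : B.pb 0 = 0 := (IsLinearMap.mk' _ B.pb_lin).map_zero

theorem I_add (a a' : B.V) (s : Multiset B.V) :
    B.I ((a + a') ::ₘ s) = B.I (a ::ₘ s) + B.I (a' ::ₘ s) :=
  (IsLinearMap.mk' _ (B.I_lin s)).map_add a a'

theorem I_sub (a a' : B.V) (s : Multiset B.V) :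
    B.I ((a - a') ::ₘ s) = B.I (a ::ₘ s) - B.I (a' ::ₘ s) :=
  (IsLinearMap.mk' _ (B.I_lin s)).map_sub a a'

theorem I_neg (a : B.V) (s : Multiset B.V) : B.I ((-a) ::ₘ s) = -B.I (a ::ₘ s) :=
  (IsLinearMap.mk' _ (B.I_lin s)).map_neg a

theorem I_smul (t : ℝ) (a : B.V) (s : Multiset B.V) : B.I ((t • a) ::ₘ s) = t * B.I (a ::ₘ s) :=
  (IsLinearMap.mk' _ (B.I_lin s)).map_smul t a

theorem I_zero (s : Multiset B.V) : B.I (0 ::ₘ s) = 0 :=
  (IsLinearMap.mk' _ (B.I_lin s)).map_zero

theorem I_sum {ι : Type} (S : Finset ι) (f : ι → B.V) (s : Multiset B.V) :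
    B.I ((∑ i ∈ S, f i) ::ₘ s) = ∑ i ∈ S, B.I (f i ::ₘ s) :=
  map_sum (IsLinearMap.mk' _ (B.I_lin s)) f S

theorem pascal (f : ℕ → ℝ) (k : ℕ) :
    ∑ i ∈ Finset.range (k + 1), (k.choose i : ℝ) * f (i + 1) +
      ∑ i ∈ Finset.range (k + 1), (k.choose i : ℝ) * f i =
      ∑ i ∈ Finset.range (k + 1 + 1), ((k + 1).choose i : ℝ) * f i := by
  have h1 : ∑ i ∈ Finset.range (k + 1), (k.choose i : ℝ) * f i =
      ∑ i ∈ Finset.range (k + 1 + 1), (k.choose i : ℝ) * f i := by
    rw [Finset.sum_range_succ _ (k + 1), Nat.choose_succ_self]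
    simp
  rw [h1, Finset.sum_range_succ' _ (k + 1), Finset.sum_range_succ' _ (k + 1), ← add_assoc,
    ← Finset.sum_add_distrib]
  congr 1
  · refine Finset.sum_congr rfl fun i _ => ?_
    rw [Nat.choose_succ_succ]
    push_cast
    ring
  · simp

/-- `(a + b)^k . s` -/
theorem I_add_pow (a b : B.V) (k : ℕ) : ∀ s : Multiset B.V,
    B.I (Multiset.replicate k (a + b) + s) =
      ∑ i ∈ Finset.range (k + 1), (k.choose i : ℝ) *
        B.I (Multiset.replicate i a + Multiset.replicate (k - i) b + s) := by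
  induction k with
  | zero => intro s; simp
  | succ k ih =>
      intro s
      have h1 : Multiset.replicate (k + 1) (a + b) + s =
          (a + b) ::ₘ (Multiset.replicate k (a + b) + s) := by
        rw [Multiset.replicate_succ, Multiset.cons_add]
      have h2 : ∀ c : B.V, B.I (c ::ₘ (Multiset.replicate k (a + b) + s)) =
          ∑ i ∈ Finset.range (k + 1), (k.choose i : ℝ) *
            B.I (Multiset.replicate i a + Multiset.replicate (k - i) b + (c ::ₘ s)) := by
        intro c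
        rw [← ih (c ::ₘ s), Multiset.add_cons]
      rw [h1, I_add, h2, h2]
      have h3 : ∀ i ∈ Finset.range (k + 1), (k.choose i : ℝ) *
          B.I (Multiset.replicate i a + Multiset.replicate (k - i) b + (a ::ₘ s)) =
          (k.choose i : ℝ) *
          B.I (Multiset.replicate (i + 1) a + Multiset.replicate (k + 1 - (i + 1)) b + s) := by
        intro i _
        rw [Multiset.add_cons, Multiset.replicate_succ, Multiset.cons_add, Multiset.cons_add,
          Nat.add_sub_add_right]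
      have h4 : ∀ i ∈ Finset.range (k + 1), (k.choose i : ℝ) *
          B.I (Multiset.replicate i a + Multiset.replicate (k - i) b + (b ::ₘ s)) =
          (k.choose i : ℝ) *
          B.I (Multiset.replicate i a + Multiset.replicate (k + 1 - i) b + s) := by
        intro i hi
        have hi' := Finset.mem_range.1 hi
        rw [show k + 1 - i = (k - i) + 1 by omega, Multiset.replicate_succ, Multiset.add_cons,
          Multiset.add_cons, Multiset.cons_add]
      rw [Finset.sum_congr rfl h3, Finset.sum_congr rfl h4]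
      exact pascal (fun i => B.I (Multiset.replicate i a + Multiset.replicate (k + 1 - i) b + s)) k

/-- the class of the b-divisor on `X`, if it has finitely many components there -/
theorem cx_fin (v : B.V) (S : Finset B.D) (hS : ∀ G ∈ S, B.X G)
    (h : ∀ G, B.X G → G ∉ S → B.o v G = 0) : B.tr v - B.cx v = ∑ G ∈ S, B.o v G • B.cl G := by
  classical
  have h1 : HasSum (fun G : {G // B.X G} => B.o v G • B.cl G) (∑ G ∈ S, B.o v G • B.cl G) := by
    have h2 : HasSum (fun G : {G // B.X G} => B.o v G • B.cl G)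
        (∑ G ∈ S.subtype B.X, B.o v G • B.cl G) :=
      hasSum_sum_of_ne_finset_zero fun G hG => by
        rw [h G G.2 fun hn => hG (Finset.mem_subtype.2 hn), zero_smul]
    rwa [Finset.sum_subtype_of_mem (fun G => B.o v G • B.cl G) hS] at h2
  exact (B.sum v).unique h1

/-- projection formula -/
theorem proj_fin (v : B.V) (S : Finset B.D) (h0 : B.tr v = 0) (hS : ∀ G ∈ S, B.X G)
    (h : ∀ G, B.X G → G ∉ S → B.o v G = 0) (s : Multiset (Fin r → ℝ)) :
    B.I (v ::ₘ s.map B.pb) = -∑ G ∈ S, B.o v G * B.I (B.pb (B.cl G) ::ₘ s.map B.pb) := by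
  have h4 := cx_fin v S hS h
  rw [h0, zero_sub, neg_eq_iff_eq_neg] at h4
  have h5 : B.pb (∑ G ∈ S, B.o v G • B.cl G) = ∑ G ∈ S, B.o v G • B.pb (B.cl G) := by
    refine (map_sum (IsLinearMap.mk' _ B.pb_lin) _ _).trans ?_
    exact Finset.sum_congr rfl fun G _ => pb_smul _ _
  rw [B.proj, h4, ← zero_sub, pb_sub, pb_zero, I_sub, I_zero, zero_sub, h5, I_sum]
  simp only [I_smul]

/-- a b-divisor which is exceptional over `X` -/
theorem I_exc {u : B.V} (hu : B.tr u = 0) (ho : ∀ G, B.X G → B.o u G = 0)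
    (s : Multiset (Fin r → ℝ)) : B.I (u ::ₘ s.map B.pb) = 0 := by
  rw [proj_fin u ∅ hu (by simp) (fun G hG _ => ho G hG) s]
  simp

end BCl

end Pool.Agent.H54.XN
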