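import Pool.Agent.H81.XN.Defs
import Pool.Agent.H88.XN.Num
import Pool.Agent.H54.XN.Lin

/-!
# Nef classes of numerical dimension two

If `L` is nef and `L^3.A^(n-3) = 0` then `L^3` is numerically trivial.
-/

namespace Pool.Agent.H54.XN

open Pool.Agent.H81.XN Pool.Agent.H88.XN Multiset

variable {r m : ℕ} {B : BCl r m}

/-- an isotropic vector which is orthogonal to a positive vector is in the kernel -/
theorem ker_of {l a : B.V} {s : Multiset B.V} (hl : B.Nef l) (hs : ∀ x ∈ s, B.Nef x)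
    (haa : 0 < B.I (a ::ₘ a ::ₘ s)) (hla : B.I (l ::ₘ a ::ₘ s) = 0) (y : B.V) :
    B.I (l ::ₘ y ::ₘ s) = 0 := by
  have hll : B.I (l ::ₘ l ::ₘ s) = 0 :=
    le_antisymm (B.index s l a hs haa hla)
      (B.nonneg _ (nef_cons hl (nef_cons hl hs)))
  set c := B.I (a ::ₘ a ::ₘ s) with hc
  set e := B.I (y ::ₘ a ::ₘ s) with he
  have hay : B.I (a ::ₘ y ::ₘ s) = e := by rw [cons_swap]
  have hal : B.I (a ::ₘ l ::ₘ s) = 0 := by rw [cons_swap, hla]
  have hyl : B.I (y ::ₘ l ::ₘ s) = B.I (l ::ₘ y ::ₘ s) := by rw [cons_swap]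
  -- the vector `T l + c y - e a`
  have key : ∀ T : ℝ, 2 * T * c * B.I (l ::ₘ y ::ₘ s) +
      (c ^ 2 * B.I (y ::ₘ y ::ₘ s) - e ^ 2 * c) ≤ 0 := by
    intro T
    have h1 : ∀ x : B.V, ∀ z, B.I ((T • l + c • y - e • x) ::ₘ z ::ₘ s) =
        T * B.I (l ::ₘ z ::ₘ s) + c * B.I (y ::ₘ z ::ₘ s) - e * B.I (x ::ₘ z ::ₘ s) := by
      intro x z
      rw [BCl.I_sub, BCl.I_add, BCl.I_smul, BCl.I_smul, BCl.I_smul]
    have h2 := B.index s (T • l + c • y - e • a) a hs haa (by
      rw [h1, hla, ← he, ← hc]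
      ring)
    rw [h1] at h2
    have h3 : ∀ z, B.I (z ::ₘ (T • l + c • y - e • a) ::ₘ s) =
        T * B.I (l ::ₘ z ::ₘ s) + c * B.I (y ::ₘ z ::ₘ s) - e * B.I (a ::ₘ z ::ₘ s) := by
      intro z
      rw [cons_swap, h1]
    rw [h3, h3, h3, hll, hla, hal, hyl, hay, ← he, ← hc] at h2
    nlinarith [h2]
  by_contra hne
  have h5 := key ((e ^ 2 * c - c ^ 2 * B.I (y ::ₘ y ::ₘ s) + 1) / (2 * c * B.I (l ::ₘ y ::ₘ s)))
  have h6 : 2 * ((e ^ 2 * c - c ^ 2 * B.I (y ::ₘ y ::ₘ s) + 1) / (2 * c * B.I (l ::ₘ y ::ₘ s))) * c *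
      B.I (l ::ₘ y ::ₘ s) = e ^ 2 * c - c ^ 2 * B.I (y ::ₘ y ::ₘ s) + 1 := by
    have hc0 : c ≠ 0 := haa.ne'
    field_simp
  rw [h6] at h5
  linarith

/-- If `L^3.A^(n-3) = 0` and `L^2.A^(n-2)` is not zero then `L` has numerical dimension two. -/
theorem two_of {L : Fin r → ℝ} (hL : B.Nef (B.pb L))
    (h0 : B.I (B.pb L ::ₘ B.pb L ::ₘ B.pb L ::ₘ replicate (m + 1) (B.pb B.A)) = 0)
    (h1 : AA B (B.pb L) (B.pb L) ≠ 0) : Two B L := by
  have haa : 0 < B.I (B.pb L ::ₘ B.pb L ::ₘ replicate (m + 2) (B.pb B.A)) :=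
    lt_of_le_of_ne (B.nonneg _ (nef_cons hL (nef_cons hL (nef_rep B.nef_A _)))) (Ne.symm h1)
  refine ⟨hL, fun s => ?_, haa⟩
  by_cases hc : card s = m + 1
  swap
  · refine B.I_card _ ?_
    rw [card_cons, card_cons, card_cons]
    omega
  have key : ∀ t : Multiset B.V, (∀ x ∈ t, x ∈ Big B (B.pb B.A)) → ∀ j, card t + j = m + 1 →
      B.I (B.pb L ::ₘ B.pb L ::ₘ B.pb L ::ₘ (t + replicate j (B.pb B.A))) = 0 := by
    intro t
    induction t using Multiset.induction_on with
    | empty =>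
      intro _ j hj
      rw [card_zero, zero_add] at hj
      rw [zero_add, hj]
      exact h0
    | cons y t ih =>
      intro ht j hj
      rw [card_cons] at hj
      set T := t + replicate j (B.pb B.A) with hT
      have hTn : ∀ x ∈ T, B.Nef x := by
        intro x hx
        rcases mem_add.1 hx with hx | hx
        · exact big_nef B.nef_A (ht x (mem_cons_of_mem hx))
        · exact nef_rep B.nef_A j x hx
      have hTb : ∀ x ∈ T, x ∈ Big B (B.pb B.A) := by
        intro x hx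
        rcases mem_add.1 hx with hx | hx
        · exact ht x (mem_cons_of_mem hx)
        · rw [eq_of_mem_replicate hx]
          exact big_self _
      have hTc : card T = m := by
        rw [hT, card_add, card_replicate]
        omega
      have e1 := ih (fun x hx => ht x (mem_cons_of_mem hx)) (j + 1) (by omega)
      rw [replicate_succ, add_cons, ← hT] at e1
      -- the form `x.y.L.L.T`
      have e2 : B.I (B.pb L ::ₘ B.pb B.A ::ₘ (B.pb L ::ₘ B.pb L ::ₘ T)) = 0 := by
        rw [cons_swap (B.pb B.A), cons_swap (B.pb B.A)]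
        exact e1
      have e3 : 0 < B.I (B.pb B.A ::ₘ B.pb B.A ::ₘ (B.pb L ::ₘ B.pb L ::ₘ T)) := by
        have h := pos_big' hL B.nef_A haa (t := B.pb B.A ::ₘ B.pb B.A ::ₘ T) (by
          intro x hx
          rcases mem_cons.1 hx with rfl | hx
          · exact big_self _
          rcases mem_cons.1 hx with rfl | hx
          · exact big_self _
          · exact hTb x hx) (by rw [card_cons, card_cons, hTc])
        rw [cons_swap (B.pb B.A) (B.pb L), cons_swap (B.pb B.A) (B.pb L),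
          cons_swap (B.pb B.A) (B.pb L), cons_swap (B.pb B.A) (B.pb L)]
        exact h
      have e4 := ker_of hL (nef_cons hL (nef_cons hL hTn)) e3 e2 y
      rw [cons_add, ← hT]
      rw [cons_swap y, cons_swap y] at e4
      exact e4
  refine ext0 (f := fun s => B.I (B.pb L ::ₘ B.pb L ::ₘ B.pb L ::ₘ s)) (S := Big B (B.pb B.A)) ?_
    (big_gen (B.pb B.A)) (N := m + 1) ?_ s hc
  · intro x y s
    simp only [cons_swap (B.pb L) (_ - _), cons_swap (B.pb L) x, cons_swap (B.pb L) y, BCl.I_sub]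
  · intro t ht hc
    have := key t ht 0 (by omega)
    rwa [replicate_zero, add_zero] at this

end Pool.Agent.H54.XN
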